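import Mathlib

set_option autoImplicit false

namespace Pool.Agent.Results.MP_8cf907_al.Classical

open Finset Equiv

/-- magic unitary -/
def Magic {X B : Type} [Fintype X] [Ring B] [StarRing B] (u : X → X → B) : Prop :=
  (∀ i j, IsStarProjection (u i j)) ∧ (∀ i, ∑ j, u i j = 1) ∧ ∀ j, ∑ i, u i j = 1

variable {V : Type} [Fintype V] [DecidableEq V]

/-- edges of the complete hypergraph; source is the first, range the second component -/
abbrev E (V : Type) := Finset V × Finset V

/-- `A_s u_E = u_V A_s` and `A_r u_E = u_V A_r`, entrywise -/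
def Rel {B : Type} [Ring B] (u : V → V → B) (w : E V → E V → B) : Prop :=
  (∀ v f, ∑ e : E V, (if v ∈ e.1 then w e f else 0) = ∑ x ∈ f.1, u v x) ∧
  ∀ v f, ∑ e : E V, (if v ∈ e.2 then w e f else 0) = ∑ x ∈ f.2, u v x

/-- classical vertex matrix over `C(S_V)` -/
def cV (v x : V) : Perm V → ℂ := fun σ => if σ x = v then 1 else 0

/-- classical edge matrix over `C(S_V)` -/
def cE (e f : E V) : Perm V → ℂ := fun σ => if (f.1.image σ, f.2.image σ) = e then 1 else 0

lemma orth {X B : Type} [Fintype X] [CStarAlgebra B] {p : X → B} (h : ∀ i, IsStarProjection (p i))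
    (s : ∑ i, p i = 1) {i j : X} (e : j ≠ i) : p j * p i = 0 := by
  classical
  let _ := CStarAlgebra.spectralOrder B
  have := CStarAlgebra.spectralOrderedRing B
  have h1 : ∑ k, star (p k * p i) * (p k * p i) = p i := by
    have : ∀ k, star (p k * p i) * (p k * p i) = p i * p k * p i := fun k => by
      rw [star_mul, (h i).2, (h k).2, mul_assoc, ← mul_assoc (p k), (h k).1, mul_assoc]
    simp only [this]
    rw [← sum_mul, ← mul_sum, s, mul_one, (h i).1]
  rw [← add_sum_erase _ _ (mem_univ i), (h i).1, (h i).2, (h i).1, add_eq_left,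
    sum_eq_zero_iff_of_nonneg fun _ _ => star_mul_self_nonneg _] at h1
  exact (CStarRing.star_mul_self_eq_zero_iff _).1 (h1 j (by simp [e]))

lemma comm {B : Type} [CStarAlgebra B] {u : V → V → B} {w : E V → E V → B} (hu : Magic u)
    (hw : Magic w) (h : Rel u w) (v x v' x' : V) : u v x * u v' x' = u v' x' * u v x := by
  have r : ∀ v x y, x ≠ y → u v x * u v y = 0 := fun v _ _ => orth (hu.1 v) (hu.2.1 v)
  have c : ∀ v x y, x ≠ y → u x v * u y v = 0 := fun v _ _ => orth (hu.1 · v) (hu.2.2 v)
  by_cases e : x = x'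
  · subst e
    by_cases e : v = v'
    · rw [e]
    · rw [c _ _ _ e, c _ _ _ (Ne.symm e)]
  by_cases e' : v = v'
  · rw [← e', r _ _ _ e, r _ _ _ (Ne.symm e)]
  have : Commute (u v x + u v x') (u v' x + u v' x') := by
    rw [← sum_pair e, ← sum_pair (f := u v') e, ← h.1 v ({x, x'}, ∅), ← h.1 v' ({x, x'}, ∅)]
    refine Commute.sum_left _ _ _ fun a _ => Commute.sum_right _ _ _ fun b _ => ?_
    split_ifs <;> try simp
    by_cases e : a = b
    · rw [e]
    · exact (orth (hw.1 · _) (hw.2.2 _) e).trans (orth (hw.1 · _) (hw.2.2 _) (Ne.symm e)).symm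
  have t := congrArg (u v x * ·) this.eq
  simp only [mul_add, add_mul, ← mul_assoc, (hu.1 v x).1.eq, r v x x' e, c x v v' e', zero_mul,
    c x' v' v (Ne.symm e'), zero_add, add_zero] at t
  have := congrArg star t
  simp only [star_mul, (hu.1 _ _).2.star_eq, ← mul_assoc] at this
  exact t.trans this.symm

lemma delta {B : Type} [CStarAlgebra B] {u : V → V → B} (hu : Magic u)
    (hc : ∀ v x v' x', u v x * u v' x' = u v' x' * u v x) : ∃ δ : Perm V → B,
      (∀ σ, star (δ σ) = δ σ) ∧ ∑ σ, δ σ = 1 ∧
      (∀ σ v x, u v x * δ σ = if σ x = v then δ σ else 0) ∧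
      ∀ σ τ, δ σ * δ τ = if σ = τ then δ σ else 0 := by
  let S := Subring.closure {a | ∃ v x, u v x = a}
  have : IsMulCommutative S := Subring.isMulCommutative_closure (by
    rintro _ ⟨_, _, rfl⟩ _ ⟨_, _, rfl⟩; exact hc _ _ _ _)
  let _ : CommRing S := { (inferInstance : Ring S) with mul_comm := this.is_comm.comm }
  let U : V → V → S := fun v x => ⟨u v x, Subring.subset_closure ⟨v, x, rfl⟩⟩
  have k : ∀ (σ : V → V) v x, U v x * ∏ y, U (σ y) y = if σ x = v then ∏ y, U (σ y) y else 0 := by
    intro σ v x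
    rw [← mul_prod_erase _ _ (mem_univ x), ← mul_assoc]
    split_ifs with e
    · rw [← e, show U (σ x) x * U (σ x) x = U (σ x) x from Subtype.ext (hu.1 _ _).1]
    · rw [show U v x * U (σ x) x = 0 from Subtype.ext (orth (hu.1 · x) (hu.2.2 x) (Ne.symm e)),
        zero_mul]
  refine ⟨fun σ => (∏ y, U (σ y) y : S), fun σ => ?_, ?_, fun σ v x => ?_, fun σ τ => ?_⟩
  · refine prod_induction _ (fun a : S => star (a : B) = a) (fun a b ha hb => ?_) (by simp)
      fun y _ => (hu.1 _ _).2
    rw [Subring.coe_mul, star_mul, ha, hb]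
    exact congrArg Subtype.val (mul_comm b a)
  · have : ∑ σ : Perm V, ∏ y, U (σ y) y = 1 := by
      rw [sum_of_injOn (t := univ) (g := fun f : V → V => ∏ y, U (f y) y) (fun σ : Perm V => ⇑σ)
        (fun _ _ _ _ h => DFunLike.coe_injective h) (by simp) ?_ fun _ _ => rfl]
      · rw [← Fintype.piFinset_univ, ← prod_univ_sum (fun _ => univ) fun y v => U v y]
        exact prod_eq_one fun y _ => Subtype.ext (by simpa [U] using hu.2.2 y)
      · intro f _ hf
        obtain ⟨a, b, e, n⟩ : ∃ a b, f a = f b ∧ a ≠ b := by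
          by_contra H
          push Not at H
          exact hf ⟨ofBijective f (Finite.injective_iff_bijective.1 H), mem_coe.2 (mem_univ _), rfl⟩
        rw [← mul_prod_erase _ _ (mem_univ a), ← mul_prod_erase _ _ (mem_erase.2 ⟨n.symm, mem_univ b⟩),
          ← mul_assoc, e, show U (f b) a * U (f b) b = 0 from Subtype.ext (orth (hu.1 _) (hu.2.1 _) n),
          zero_mul]
    simpa using congrArg S.subtype this
  · have := congrArg Subtype.val (k σ v x)
    split_ifs at this ⊢ <;> exact this
  · split_ifs with e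
    · subst e
      exact congrArg Subtype.val (prod_induction _ (fun a => a * ∏ y, U (σ y) y = ∏ y, U (σ y) y)
        (fun a b ha hb => by rw [mul_assoc, hb, ha]) (one_mul _) fun y _ => by rw [k, if_pos rfl])
    · obtain ⟨x, hx⟩ := not_forall.1 (mt Equiv.ext e)
      refine congrArg Subtype.val (show (∏ y, U (σ y) y) * ∏ y, U (τ y) y = (0 : S) from ?_)
      rw [← mul_prod_erase _ _ (mem_univ x), mul_right_comm, k, if_neg (Ne.symm hx), zero_mul]

open scoped Matrix.Norms.L2Operator in
theorem result (V : Type) [Fintype V] [DecidableEq V] :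
    (Magic (cV (V := V)) ∧ Magic (cE (V := V)) ∧ Rel (cV (V := V)) cE) ∧
    (∀ (B : Type) [CStarAlgebra B] (u : V → V → B) (w : E V → E V → B), Magic u → Magic w →
      Rel u w → ∃! φ : (Perm V → ℂ) →⋆ₐ[ℂ] B,
        (∀ v x, φ (cV v x) = u v x) ∧ ∀ e f, φ (cE e f) = w e f) ∧
    (4 ≤ Fintype.card V → ∃ (B : Type) (_ : CStarAlgebra B) (u : V → V → B), Magic u ∧
      ¬ ∃ w, Magic w ∧ Rel u w) := by
  have m : ∀ (σ : Perm V) v (X : Finset V), (∑ x ∈ X, if σ x = v then (1 : ℂ) else 0) =
      if v ∈ X.image σ then 1 else 0 := fun σ v X => by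
    obtain ⟨v, rfl⟩ := σ.surjective v
    simp
  have pr : ∀ (P : Perm V → Prop) [DecidablePred P],
      IsStarProjection fun σ => if P σ then (1 : ℂ) else 0 := fun P _ =>
    ⟨funext fun σ => by by_cases h : P σ <;> simp [h], funext fun σ => by
      by_cases h : P σ <;> simp [h]⟩
  refine ⟨⟨⟨fun _ _ => pr _, fun v => ?_, fun v => ?_⟩, ⟨fun _ _ => pr _, fun e => ?_, fun e => ?_⟩,
    fun v f => ?_, fun v f => ?_⟩, fun B _ u w hu hw h => ?_, fun h4 => ?_⟩
  · ext σ; simp [cV, m]
  · ext σ; simp [cV]
  · ext σ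
    rw [Finset.sum_apply, sum_eq_single (e.1.image σ.symm, e.2.image σ.symm)]
    · simp [cE, image_image]
    · intro f _ hf
      refine if_neg fun c => hf ?_
      simp [← c, image_image]
    · simp
  · ext σ; simp [cE]
  · ext σ
    simp only [Finset.sum_apply, ite_apply, cV, cE, m, Pi.zero_apply]
    rw [sum_eq_single (f.1.image σ, f.2.image σ) (fun b _ h => by simp [h.symm]) (by simp)]
    simp
  · ext σ
    simp only [Finset.sum_apply, ite_apply, cV, cE, m, Pi.zero_apply]
    rw [sum_eq_single (f.1.image σ, f.2.image σ) (fun b _ h => by simp [h.symm]) (by simp)]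
    simp
  · obtain ⟨δ, d1, d2, d3, d4⟩ := delta hu (comm hu hw h)
    let φ : (Perm V → ℂ) →⋆ₐ[ℂ] B :=
      { toFun := fun f => ∑ σ, f σ • δ σ
        map_one' := by simpa using d2
        map_mul' := fun f g => by simp [sum_mul_sum, d4, smul_smul, mul_comm]
        map_zero' := by simp
        map_add' := fun f g => by simp [add_smul, sum_add_distrib]
        commutes' := fun c => by simp [← smul_sum, d2, Algebra.algebraMap_eq_smul_one]
        map_star' := fun f => by simp [star_sum, d1] }
    have p1 : ∀ v x, φ (cV v x) = u v x := fun v x => by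
      rw [← mul_one (u v x), ← d2, mul_sum]
      simp [φ, cV, d3]
    refine ⟨φ, ⟨p1, fun e f => ?_⟩, fun ψ hψ => ?_⟩
    · have z : ∀ (σ : Perm V) e, (f.1.image σ, f.2.image σ) ≠ e → w e f * δ σ = 0 := by
        intro σ e he
        have : ∀ (s : E V → Finset V), (∀ v, ∑ e : E V, (if v ∈ s e then w e f else 0) =
            ∑ x ∈ s f, u v x) → (s f).image σ ≠ s e → w e f * δ σ = 0 := by
          intro s hs n
          obtain ⟨v, hv⟩ := not_forall.1 (mt Finset.ext n)
          have a1 : w e f * ∑ x ∈ s f, u v x = if v ∈ s e then w e f else 0 := by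
            rw [← hs, mul_sum, sum_eq_single e]
            · split_ifs <;> simp [(hw.1 e f).1.eq]
            · intro b _ hb
              split_ifs <;> simp [orth (hw.1 · f) (hw.2.2 f) hb.symm]
            · simp
          have a2 : (∑ x ∈ s f, u v x) * δ σ = if v ∈ (s f).image σ then δ σ else 0 := by
            obtain ⟨v, rfl⟩ := σ.surjective v
            simp [sum_mul, d3]
          have := mul_assoc (w e f) (∑ x ∈ s f, u v x) (δ σ)
          rw [a1, a2] at this
          split_ifs at this <;> simp_all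
        by_cases c : f.1.image σ = e.1
        · exact this Prod.snd (h.2 · f) fun c' => he (Prod.ext c c')
        · exact this Prod.fst (h.1 · f) c
      rw [← mul_one (w e f), ← d2, mul_sum]
      refine sum_congr rfl fun σ _ => ?_
      simp only [cE]
      split_ifs with c
      · rw [one_smul]
        conv_lhs => rw [← one_mul (δ σ), ← hw.2.2 f, sum_mul,
          sum_eq_single e (fun b _ hb => z σ b (c ▸ hb.symm)) (by simp)]
      · rw [zero_smul, z σ e c]
    · ext f
      have : f = ∑ σ : Perm V, f σ • ∏ y, cV (σ y) y := by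
        ext τ
        simp [cV, prod_ite_zero, ← Equiv.ext_iff]
      rw [this, map_sum, map_sum]
      refine sum_congr rfl fun σ _ => ?_
      rw [map_smul, map_smul, prod_induction _ (fun a => ψ a = φ a)
        (fun a b ha hb => by rw [map_mul, map_mul, ha, hb]) (by simp) fun y _ => by rw [hψ.1, p1]]
  obtain ⟨g⟩ := Function.Embedding.nonempty_of_card_le (show Fintype.card (Fin 4) ≤ _ from h4)
  let τ : Perm V := swap (g 0) (g 1) * swap (g 2) (g 3)
  let p : V → Matrix (Fin 2) (Fin 2) ℂ := fun v =>
    if v = g 0 ∨ v = g 1 then !![1, 0; 0, 0] else !![2⁻¹, 2⁻¹; 2⁻¹, 2⁻¹]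
  have hp : ∀ v, IsStarProjection (p v) := fun v => by
    dsimp only [p]
    split_ifs <;> constructor <;> ext i j <;> fin_cases i <;> fin_cases j <;> simp <;> norm_num
  suffices H : Magic fun v x => (if v = x then p v else 0) + if τ v = x then 1 - p v else 0 by
    refine ⟨_, inferInstance, _, H, fun ⟨w, hw, h⟩ => ?_⟩
    have := congrFun (congrFun (comm H hw h (g 0) (g 0) (g 2) (g 2)) 0) 1
    simp [τ, p, swap_apply_def] at this
  refine ⟨fun v x => ?_, fun v => by simp [sum_add_distrib], fun x => ?_⟩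
  · dsimp only
    split_ifs <;> simp [hp, isStarProjection_one_sub_iff]
  · obtain ⟨x, rfl⟩ := τ.surjective x
    have : p (τ x) = p x := by
      simp only [p, τ, Perm.mul_apply, swap_apply_def]
      congr 1
      have := g.injective
      grind
    simp [sum_add_distrib, this]

end Pool.Agent.Results.MP_8cf907_al.Classical
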